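import Pool.Agent.Work.MP_dca501_an.Final

/-!
# Isomorphically projective Banach lattices need not be isomorphic to isometrically projective ones
-/

namespace Pool.Agent.Results.MP_dca501_an.NoRenorming

open ProjBL

universe u v

/-- There is an isomorphically projective Banach lattice `P` such that no Banach lattice
isomorphic to `P` is isometrically projective (negative answer to Q1). -/
theorem result : ∃ P : BLat.{0}, IsomorphicallyProjective.{u} P ∧
    ∀ P' : BLat.{v}, Isomorphic P P' → ¬ IsometricallyProjective.{0} P' :=
  negative_answer

end Pool.Agent.Results.MP_dca501_an.NoRenorming
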